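import Pool.Agent.COV.StmtsB

set_option autoImplicit false

/-!
Row TRV of squad COV, block B (MP_160b6c_nt): translation by `w`.
-/

namespace Pool.Agent.COV.H8

open Pool.Agent.KDT.Z

theorem trv (h1 : CppStatement) (h2 : SubStatement) (h3 : ZfuStmt) : TrvStmt := by
  intro k U _ _ _ f g henv f4 q1 q2 w hinf y hy hr hro G hG
  obtain ⟨N, D, hN, hD, hE⟩ := h1 U f4 w
  obtain ⟨G', -, hG'⟩ := h2 4 (MvPolynomial.map (algebraMap k U) G).totalDegree 20 U
    (MvPolynomial.map (algebraMap k U) G) N D le_rfl hN hD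
  have hemb : emb U w = w := by
    funext i
    rfl
  -- the main formula
  have key : ∀ x : Fin 4 → U, rr x w ≠ 0 → ro x w ≠ 0 →
      MvPolynomial.aeval x D ≠ 0 ∧ MvPolynomial.eval x G' =
        (MvPolynomial.aeval x D) ^ (MvPolynomial.map (algebraMap k U) G).totalDegree *
          MvPolynomial.aeval (cmp f4 x w) G := by
    intro x hx1 hx2
    obtain ⟨hk1, hk2⟩ := hE U x
    rw [hemb] at hk1 hk2
    have hDx : MvPolynomial.aeval x D ≠ 0 := hk1.2 ⟨hx1, hx2⟩
    have hck : (fun i => MvPolynomial.aeval x (N i) / MvPolynomial.aeval x D)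
        = cmp f4 x w := by
      funext i
      exact (hk2 hDx i).symm
    have h4 := hG' U x hDx
    rw [hck, MvPolynomial.aeval_map_algebraMap] at h4
    refine ⟨hDx, ?_⟩
    rw [← h4, MvPolynomial.aeval_eq_eval]
  have hz : MvPolynomial.eval y G' = 0 := by
    refine h3 k U f g henv q1 G' ?_ y hy
    refine hinf.mono ?_
    rintro t ⟨ht1, ht2, ht3, ht4⟩
    refine ⟨ht1, ?_⟩
    rw [(key _ ht2 ht3).2, ht4 G hG, mul_zero]
  obtain ⟨hDy, hyG⟩ := key y hr hro
  rw [hz] at hyG
  rcases mul_eq_zero.1 hyG.symm with h | h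
  · exact absurd h (pow_ne_zero _ hDy)
  · exact h

end Pool.Agent.COV.H8
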